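import Pool.Agent.Q12.ST.Avg

/-!
# From pairs to products: the Sato-Tate law for almost all products

`K` is a number field (`K = ℚ` in the question) and `A_i`, `i ∈ ι`, a family of abelian varieties over
`K`.  `Z` is a compact space and `x i v ∈ Z` the class of the Frobenius of the prime `v` for `A_i`, for
instance its conjugacy class in the Sato-Tate group, with any choice at the finitely many bad primes, and
`μ i` the law expected for `A_i`.  The Sato-Tate conjecture for the product `A_{t 1} × ... × A_{t k}` of
members with independent classes is the statement that the tuples `(x (t 1) v, ..., x (t k) v)` have the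
law `μ (t 1) × ... × μ (t k)`; the coefficients `a_i(A)(p)` of the question are continuous functions of
such a tuple.  For pairwise non-isogenous elliptic curves over `ℚ` without complex multiplication the
case `k = 2` is known (Harris, Barnet-Lamb - Geraghty - Harris - Taylor) and the case `k ≥ 3` is open.

The theorem says: if the law holds for all members and all pairs of different members of a family, then
for every `k` it holds for all but `O(n ^ (k - 1))` of the `n ^ k` products of `k` members of every
subfamily with `n` members, with any given precision, at all large scales; this is so also for the joint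
law with any further data `y v`, for instance the classes of one more abelian variety about which nothing
is assumed.
-/

set_option autoImplicit false

namespace Pool.Agent.Results.MP_753a9c_nt.AlmostAllProducts

open NumberField IsDedekindDomain Filter Topology MeasureTheory Pool.Agent.Q12.ST

section

variable {K : Type} [Field K] [NumberField K]

/-- The average of `φ` over the primes of `K` of norm at most `N`. -/
noncomputable def avg (φ : HeightOneSpectrum (𝓞 K) → ℂ) (N : ℕ) : ℂ :=
  (∑ᶠ v : {v : HeightOneSpectrum (𝓞 K) // Ideal.absNorm v.asIdeal ≤ N}, φ v.1) /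
    (Nat.card {v : HeightOneSpectrum (𝓞 K) // Ideal.absNorm v.asIdeal ≤ N} : ℂ)

/-- The law holds for the members and for the pairs of different members of the family: the `x i v` are
equidistributed for `μ i` and, for `i ≠ j`, the pairs `(x i v, x j v)` for `μ i × μ j`. -/
structure LawForPairs {ι Z : Type} [TopologicalSpace Z] [MeasurableSpace Z]
    (x : ι → HeightOneSpectrum (𝓞 K) → Z) (μ : ι → Measure Z) : Prop where
  members : ∀ (i : ι) (φ : Z → ℂ), Continuous φ →
    Tendsto (avg fun v => φ (x i v)) atTop (𝓝 (∫ z, φ z ∂μ i))
  pairs : ∀ i j : ι, i ≠ j → ∀ φ : Z × Z → ℂ, Continuous φ →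
    Tendsto (avg fun v => φ (x i v, x j v)) atTop (𝓝 (∫ z, φ z ∂((μ i).prod (μ j))))

/-- The set of the `t ∈ J ^ k` for which the average of `f (y v, (x (t 1) v, ..., x (t k) v))` over the
primes of norm at most `N` differs by more than `ε` from the average of the integrals of `f (y v, z)` for
the law `μ (t 1) × ... × μ (t k)`. -/
def exceptional {ι Z Y : Type} [MeasurableSpace Z] (x : ι → HeightOneSpectrum (𝓞 K) → Z)
    (μ : ι → Measure Z) (y : HeightOneSpectrum (𝓞 K) → Y) {k : ℕ} (f : Y × (Fin k → Z) → ℂ) (ε : ℝ)
    (J : Finset ι) (N : ℕ) : Set (Fin k → ι) :=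
  {t | (∀ l, t l ∈ J) ∧ ε < ‖avg (fun v => f (y v, fun l => x (t l) v)) N -
    avg (fun v => ∫ z, f (y v, z) ∂(Measure.pi fun l => μ (t l))) N‖}

end

section Bridge

variable {K : Type} [Field K] [NumberField K]

theorem avg_eq (g : HeightOneSpectrum (𝓞 K) → ℂ) (N : ℕ) : avg g N = ex (PV K N) g := avg_ex g N

theorem pi_of {ι Z : Type} [TopologicalSpace Z] [CompactSpace Z] [T2Space Z] [MeasurableSpace Z]
    [BorelSpace Z] {x : ι → HeightOneSpectrum (𝓞 K) → Z} {μ : ι → Measure Z}
    [∀ i, IsProbabilityMeasure (μ i)] (h : LawForPairs x μ) : PI (PV K) x μ where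
  ne := PV_ne
  one i φ hφ := (h.members i φ hφ).congr fun N => avg_eq _ N
  two i j hij φ ψ hφ hψ := by
    have h1 := h.pairs i j hij (fun z => φ z.1 * ψ z.2)
      ((hφ.comp continuous_fst).mul (hψ.comp continuous_snd))
    rw [integral_prod_mul] at h1
    exact h1.congr fun N => avg_eq _ N

theorem ncard_exceptional {ι Z Y : Type} [DecidableEq ι] [MeasurableSpace Z]
    (x : ι → HeightOneSpectrum (𝓞 K) → Z) (μ : ι → Measure Z) (y : HeightOneSpectrum (𝓞 K) → Y)
    {k : ℕ} (f : Y × (Fin k → Z) → ℂ) (ε : ℝ) (J : Finset ι) (N : ℕ) :
    (exceptional x μ y f ε J N).ncard = ((Fintype.piFinset fun _ : Fin k => J).filter fun t =>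
        ε < ‖ex (PV K N) (fun v => f (y v, fun l => x (t l) v)) -
          ex (PV K N) fun v => ∫ z, f (y v, z) ∂(Measure.pi fun l => μ (t l))‖).card := by
  classical
  rw [← Set.ncard_coe_finset]
  congr 1
  ext t
  rw [Finset.mem_coe, Finset.mem_filter, Fintype.mem_piFinset, ← avg_eq, ← avg_eq]
  rfl

end Bridge

/-- **The Sato-Tate law for almost all products.**  Let `Z` be a compact metrizable space, `Y` a compact
Hausdorff space, `k ≥ 0`, `f` a continuous function on `Y × Z ^ (k + 1)` and `ε > 0`.  Then there is a
number `C` with the following property.  Let `K` be a number field, `x i v ∈ Z` for `i ∈ ι` and the primes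
`v` of `K`, and `μ i` probability measures on `Z`, such that the `x i v` are equidistributed for `μ i` and
the pairs `(x i v, x j v)`, `i ≠ j`, for `μ i × μ j`.  Then for every finite subset `J` of `ι` and all
sufficiently large `N`: for all `y v ∈ Y`, without any assumption on `y`, the number of the
`t ∈ J ^ (k + 1)` such that the averages over the primes of norm at most `N` of
`f (y v, (x (t 0) v, ..., x (t k) v))` and of `∫ f (y v, z) d(μ (t 0) × ... × μ (t k))` differ by more
than `ε` is at most `C |J| ^ k`. -/
theorem result (Z Y : Type) [TopologicalSpace Z] [CompactSpace Z] [T2Space Z]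
    [SecondCountableTopology Z] [MeasurableSpace Z] [BorelSpace Z] [TopologicalSpace Y]
    [CompactSpace Y] [T2Space Y] (k : ℕ) (f : Y × (Fin (k + 1) → Z) → ℂ) (hf : Continuous f)
    (ε : ℝ) (hε : 0 < ε) :
    ∃ C : ℝ, ∀ (K : Type) [Field K] [NumberField K] (ι : Type)
      (x : ι → HeightOneSpectrum (𝓞 K) → Z) (μ : ι → Measure Z) [∀ i, IsProbabilityMeasure (μ i)],
      LawForPairs x μ → ∀ J : Finset ι, ∀ᶠ N in atTop, ∀ y : HeightOneSpectrum (𝓞 K) → Y,
        ((exceptional x μ y f ε J N).ncard : ℝ) ≤ C * (J.card : ℝ) ^ k := by
  classical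
  obtain ⟨C, hC⟩ := tuples_allU (k + 1) hf hε
  refine ⟨max C 0, fun K _ _ ι x μ _ hx J => ?_⟩
  filter_upwards [hC _ ι (PV K) x μ (pi_of hx) J] with N hN y
  rw [ncard_exceptional]
  have h1 := hN y
  rcases J.eq_empty_or_nonempty with rfl | hJ
  · have e : (Fintype.piFinset fun _ : Fin (k + 1) => (∅ : Finset ι)) = ∅ := by
      rw [Fintype.piFinset_eq_empty]
      exact ⟨0, rfl⟩
    rw [e, Finset.filter_empty, Finset.card_empty, Nat.cast_zero, Finset.card_empty, Nat.cast_zero]
    exact mul_nonneg (le_max_right _ _) (by positivity)
  · have h2 : (0 : ℝ) < J.card := by exact_mod_cast hJ.card_pos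
    rw [pow_succ, ← mul_assoc] at h1
    exact (le_of_mul_le_mul_right h1 h2).trans
      (mul_le_mul_of_nonneg_right (le_max_left _ _) (by positivity))

end Pool.Agent.Results.MP_753a9c_nt.AlmostAllProducts
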