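import Pool.Agent.Q93.KM.Jac
import Mathlib.Algebra.MvPolynomial.Degrees

/-!
# Products of Jacobians of hyperelliptic curves whose coefficients arise from arbitrary integers by changing a few digits: the
Sato-Tate expectations of low degree, with square-root error, at arbitrary sets of primes

Let `C_j : Y ^ 2 = X ^ (2 g_j + 1) + ...`, `j < s`, be curves of genus `g_j` whose coefficients arise from arbitrary integers by
changing a few digits at random positions, and let `A` be the product of their Jacobians. For almost all choices the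
normalised coefficients `a_1(C_j)(p)`, `j < s`, at the primes `p` of any sufficiently dense set behave up to a square-root error term as
the corresponding functions on `USp(2 g_0) × ... × USp(2 g_(s-1))`, for all polynomials of degree at most `2 g_j + 1` in `a_1(C_j)`.
If all the curves are elliptic curves then this determines the first three moments of all the coefficients `a_i(A)(p)` of the
normalised Euler factor of `A`.
-/

set_option autoImplicit false

namespace Pool.Agent.Results.MP_753a9c_nt.FewDigitProducts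

open Finset Pool.Agent.Q235.FD

/-- The coefficient `a_1(C)(p) = (N_1 - p - 1) / p ^ (1 / 2)` of the normalised Euler factor at `p` of (the Jacobian of) the curve
`C : Y ^ 2 = X ^ D + n (D - 1) X ^ (D - 1) + ... + n 0` with `D` odd; the number `N_1` of the points modulo `p` is
`affine p n + 1` (there is one point at infinity). -/
noncomputable def a₁ {D : ℕ} (p : ℕ) (n : Fin D → ℕ) : ℝ := (((affine p n + 1 : ℕ) : ℝ) - p - 1) / Real.sqrt p

/-- The moments of `a_1` for `USp(2 g)` and `k ≤ 2 g + 1`: `(k - 1)!!` for even `k`, and `0` for odd `k`. -/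
noncomputable def c₁ (k : ℕ) : ℝ := if Even k then ((k - 1).doubleFactorial : ℝ) else 0

section

variable {s : ℕ} {g : Fin s → ℕ}

/-- The coefficients of the curve `C_j`. -/
def curve (m : (Σ j : Fin s, Fin (2 * g j + 1)) → ℕ) (j : Fin s) : Fin (2 * g j + 1) → ℕ := fun i => m ⟨j, i⟩

/-- All the curves have good reduction at `p` (`p ≠ 2`, and the polynomials are separable modulo `p`). -/
def AllGood (p : ℕ) (m : (Σ j : Fin s, Fin (2 * g j + 1)) → ℕ) : Prop := ∀ j, GoodPrime p (curve m j)

/-- The expectation of a polynomial in independent variables with the moments `c₁`: the linear map with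
`∏ X_j ^ k_j ↦ ∏ c₁ (k_j)`. -/
noncomputable def expect (Φ : MvPolynomial (Fin s) ℝ) : ℝ := ∑ d ∈ Φ.support, Φ.coeff d * ∏ j, c₁ (d j)

/-- The sum of the absolute values of the coefficients. -/
noncomputable def size (Φ : MvPolynomial (Fin s) ℝ) : ℝ := ∑ d ∈ Φ.support, |Φ.coeff d|

/-- The coefficient of `T ^ i` in `∏ (1 + X_j T + T ^ 2)`, a polynomial in the variables `X_j`. -/
noncomputable def coeffPoly (s i : ℕ) : MvPolynomial (Fin s) ℝ :=
  (∏ j : Fin s, (1 + Polynomial.C (MvPolynomial.X j) * Polynomial.X + Polynomial.X ^ 2) : Polynomial (MvPolynomial (Fin s) ℝ)).coeff i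

/-- The coefficient `a_i(A)(p)` of the normalised Euler factor `∏ (1 + a_1(C_j)(p) T + T ^ 2)` of the product `A` of `s` elliptic
curves `C_j`. -/
noncomputable def a (p : ℕ) (m : (Σ j : Fin s, Fin (2 * g j + 1)) → ℕ) (i : ℕ) : ℝ :=
  (∏ j : Fin s, (1 + Polynomial.C (a₁ p (curve m j)) * Polynomial.X + Polynomial.X ^ 2) : Polynomial ℝ).coeff i

open Classical in
/-- For all sets `P` of primes in the family, with `W = |P| ^ (1 / 2) x ^ δ` (`P` not empty):
at most `W` of the primes in `P` are bad; for all polynomials `Φ` in `s` variables of degree at most `2 g j + 1` in the `j`-th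
variable the sum of `Φ (a_1(C_0)(p), ..., a_1(C_(s-1))(p)) - expect Φ` over the good primes in `P` is at most `size Φ * W` in
absolute value; and if all `g j = 1` then for all `i` and all `k ≤ 3` the sum of `a_i(A)(p) ^ k - expect (coeffPoly s i ^ k)` over the good
primes in `P` is at most `size (coeffPoly s i ^ k) * W`. -/
def Good {B : ℕ} (δ : ℝ) (θ : Sets B) (x : ℕ) (m : (Σ j : Fin s, Fin (2 * g j + 1)) → ℕ) : Prop :=
  ∀ P ∈ θ.S x, (number P (fun p => ¬ AllGood p m) : ℝ) ≤ Real.sqrt (max 1 P.card) * (x : ℝ) ^ δ ∧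
    (∀ Φ : MvPolynomial (Fin s) ℝ, (∀ j, Φ.degreeOf j ≤ 2 * g j + 1) →
      |∑ p ∈ P.filter (fun p => AllGood p m), (MvPolynomial.eval (fun j => a₁ p (curve m j)) Φ - expect Φ)| ≤
        size Φ * (Real.sqrt (max 1 P.card) * (x : ℝ) ^ δ)) ∧
    ((∀ j, g j = 1) → ∀ i k : ℕ, k ≤ 3 →
      |∑ p ∈ P.filter (fun p => AllGood p m), (a p m i ^ k - expect (coeffPoly s i ^ k))| ≤
        size (coeffPoly s i ^ k) * (Real.sqrt (max 1 P.card) * (x : ℝ) ^ δ))

end

lemma degree_coeff (s : ℕ) (l : Fin s) (S : Finset (Fin s)) : ∀ i : ℕ,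
    MvPolynomial.degreeOf l ((∏ j ∈ S, (1 + Polynomial.C (MvPolynomial.X j) * Polynomial.X + Polynomial.X ^ 2) :
      Polynomial (MvPolynomial (Fin s) ℝ)).coeff i) ≤ if l ∈ S then 1 else 0 := by
  classical
  induction S using Finset.induction_on with
  | empty =>
    intro i
    rw [prod_empty, Polynomial.coeff_one]
    split_ifs <;> simp
  | insert j S hj ih =>
    intro i
    rw [prod_insert hj, Polynomial.coeff_mul]
    refine (MvPolynomial.degreeOf_sum_le _ _ _).trans (Finset.sup_le ?_)
    intro x _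
    refine (MvPolynomial.degreeOf_mul_le _ _ _).trans ?_
    have h1 : MvPolynomial.degreeOf l ((1 + Polynomial.C (MvPolynomial.X j) * Polynomial.X + Polynomial.X ^ 2 :
      Polynomial (MvPolynomial (Fin s) ℝ)).coeff x.1) ≤ if l = j then 1 else 0 := by
      rw [Polynomial.coeff_add, Polynomial.coeff_add, Polynomial.coeff_C_mul, Polynomial.coeff_one, Polynomial.coeff_X, Polynomial.coeff_X_pow]
      refine (MvPolynomial.degreeOf_add_le _ _ _).trans (max_le ((MvPolynomial.degreeOf_add_le _ _ _).trans (max_le ?_ ?_)) ?_)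
      · split_ifs <;> simp
      · refine (MvPolynomial.degreeOf_mul_le _ _ _).trans ?_
        have h2 : MvPolynomial.degreeOf l (if 1 = x.1 then (1 : MvPolynomial (Fin s) ℝ) else 0) = 0 := by
          split_ifs <;> simp
        rw [h2, add_zero, MvPolynomial.degreeOf_X]
      · split_ifs <;> simp
    have h2 := ih x.2
    by_cases hl : l = j
    · subst hl
      rw [if_neg hj] at h2
      rw [if_pos rfl] at h1
      rw [if_pos (mem_insert_self _ _)]
      omega
    · rw [if_neg hl] at h1
      have e : l ∈ insert j S ↔ l ∈ S := by rw [mem_insert]; simp [hl]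
      simp only [e]
      omega

lemma degree_coeffPoly (s i k : ℕ) (l : Fin s) : (coeffPoly s i ^ k).degreeOf l ≤ k := by
  refine (MvPolynomial.degreeOf_pow_le _ _ _).trans ?_
  have h := degree_coeff s l univ i
  rw [if_pos (mem_univ _)] at h
  calc k * (coeffPoly s i).degreeOf l ≤ k * 1 := Nat.mul_le_mul_left _ h
    _ = k := mul_one _

lemma eval_coeffPoly {s : ℕ} {g : Fin s → ℕ} (p : ℕ) (m : (Σ j : Fin s, Fin (2 * g j + 1)) → ℕ) (i : ℕ) :
    MvPolynomial.eval (fun j => a₁ p (curve m j)) (coeffPoly s i) = a p m i := by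
  unfold coeffPoly a
  rw [← Polynomial.coeff_map, Polynomial.map_prod]
  congr 1
  refine prod_congr rfl fun j _ => ?_
  simp

/-- For all `s ≥ 1`, genera `g j ≥ 1`, bases `b ≥ 2`, `δ > 0`, `A` and `B`, `Good δ θ x m` holds for almost all systems `m` of the
coefficients of the curves obtained by changing a few digits of arbitrary integers (`ForAlmostAll`), uniformly in the family
`θ` of at most `x ^ B` sets of primes up to `x`. -/
theorem result (s : ℕ) (hs : 1 ≤ s) (g : Fin s → ℕ) (_hg : ∀ j, 1 ≤ g j) (b : ℕ) (hb : 2 ≤ b) (δ : ℝ) (hδ : 0 < δ) (A B : ℕ) :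
    ForAlmostAll (Σ j : Fin s, Fin (2 * g j + 1)) b A (Good (g := g) (B := B) δ) := by
  classical
  refine (Pool.Agent.Q93.KM.jac_law s hs (fun j => 2 * g j + 1) (fun j => ⟨g j, rfl⟩) hb hδ A B).mono 0 ?_
  intro θ x m _ h P hP
  obtain ⟨h1, h2⟩ := h P hP
  obtain ⟨W, hW⟩ : ∃ W : ℝ, W = Real.sqrt (max 1 P.card) * (x : ℝ) ^ δ := ⟨_, rfl⟩
  rw [← hW] at h1 h2 ⊢
  have ea : ∀ (p : ℕ) (j : Fin s), a₁ p (curve m j) = -(ntrace p (curve m j)) := by
    intro p j
    unfold a₁ ntrace
    push_cast
    ring
  have e0 : ∀ p, ∏ j, Pool.Agent.Q93.KM.fpow 0 p (fun i => m ⟨j, i⟩) = if AllGood p m then (1 : ℝ) else 0 := by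
    intro p
    by_cases hg : AllGood p m
    · rw [if_pos hg]
      refine prod_eq_one fun j _ => ?_
      have hj : GoodPrime p (fun i => m ⟨j, i⟩) := hg j
      unfold Pool.Agent.Q93.KM.fpow
      rw [if_pos hj, pow_zero]
    · rw [if_neg hg]
      unfold AllGood at hg
      push Not at hg
      obtain ⟨j, hj⟩ := hg
      refine prod_eq_zero (mem_univ j) ?_
      unfold Pool.Agent.Q93.KM.fpow
      exact if_neg hj
  have ek : ∀ (k : Fin s → ℕ) (p : ℕ), ∏ j, Pool.Agent.Q93.KM.fpow (k j) p (fun i => m ⟨j, i⟩) =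
      if AllGood p m then ∏ j, a₁ p (curve m j) ^ k j else 0 := by
    intro k p
    by_cases hg : AllGood p m
    · rw [if_pos hg]
      refine prod_congr rfl fun j _ => ?_
      have hj : GoodPrime p (fun i => m ⟨j, i⟩) := hg j
      unfold Pool.Agent.Q93.KM.fpow
      rw [if_pos hj, ea]
      rfl
    · rw [if_neg hg]
      unfold AllGood at hg
      push Not at hg
      obtain ⟨j, hj⟩ := hg
      refine prod_eq_zero (mem_univ j) ?_
      unfold Pool.Agent.Q93.KM.fpow
      exact if_neg hj
  have hmon : ∀ k : Fin s → ℕ, (∀ j, k j ≤ 2 * g j + 1) →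
      |∑ p ∈ P.filter (fun p => AllGood p m), (∏ j, a₁ p (curve m j) ^ k j - ∏ j, c₁ (k j))| ≤ W := by
    intro k hk
    refine le_trans (le_of_eq ?_) (h2 k hk)
    congr 1
    rw [sum_filter]
    refine sum_congr rfl fun p _ => ?_
    rw [e0, ek]
    by_cases hg : AllGood p m
    · rw [if_pos hg, if_pos hg, if_pos hg, mul_one]
      rfl
    · rw [if_neg hg, if_neg hg, if_neg hg, mul_zero, sub_zero]
  have hpoly : ∀ Φ : MvPolynomial (Fin s) ℝ, (∀ j, Φ.degreeOf j ≤ 2 * g j + 1) →
      |∑ p ∈ P.filter (fun p => AllGood p m), (MvPolynomial.eval (fun j => a₁ p (curve m j)) Φ - expect Φ)| ≤ size Φ * W := by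
    intro Φ hΦ
    have e1 : ∑ p ∈ P.filter (fun p => AllGood p m), (MvPolynomial.eval (fun j => a₁ p (curve m j)) Φ - expect Φ) =
        ∑ d ∈ Φ.support, Φ.coeff d * ∑ p ∈ P.filter (fun p => AllGood p m), (∏ j, a₁ p (curve m j) ^ d j - ∏ j, c₁ (d j)) := by
      simp_rw [mul_sum]
      rw [sum_comm]
      refine sum_congr rfl fun p _ => ?_
      rw [MvPolynomial.eval_eq']
      unfold expect
      rw [← sum_sub_distrib]
      refine sum_congr rfl fun d _ => ?_
      ring
    rw [e1]
    refine (abs_sum_le_sum_abs _ _).trans ?_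
    unfold size
    rw [sum_mul]
    refine sum_le_sum fun d hd => ?_
    rw [abs_mul]
    exact mul_le_mul_of_nonneg_left (hmon d fun j => (MvPolynomial.monomial_le_degreeOf j hd).trans (hΦ j)) (abs_nonneg _)
  refine ⟨?_, hpoly, fun hg1 i k hk => ?_⟩
  · refine le_trans (le_of_eq ?_) ((le_abs_self _).trans h1)
    unfold number
    rw [card_filter]
    push_cast
    refine sum_congr rfl fun p _ => ?_
    rw [e0]
    by_cases hg : AllGood p m
    · rw [if_neg (not_not.2 hg), if_pos hg, sub_self]
    · rw [if_pos hg, if_neg hg, sub_zero]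
  · have h3 := hpoly (coeffPoly s i ^ k) (fun j => (degree_coeffPoly s i k j).trans (by rw [hg1 j]; omega))
    simp only [map_pow, eval_coeffPoly] at h3
    exact h3

end Pool.Agent.Results.MP_753a9c_nt.FewDigitProducts
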