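import Mathlib
import Pool.Agent.Q233.TL.Curves

set_option autoImplicit false

/-! # The joint law of the Frobenius traces of products of quadratic twists

Let `E_j : y² = x³ + A_j x + B_j`, `j = 1, …, k`, be arbitrary curves (isogenous or not, with or without
complex multiplication). For all but at most `N ^ (k - c)` of the vectors `(D_1, …, D_k)` of nonzero
integers of modulus at most `N`, the following holds for the abelian variety
`E_1^{D_1} × ⋯ × E_k^{D_k}`, for all `x` with `(log N) ^ C ≤ x ≤ N ^ c`, all sign vectors `η` and all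
intervals `I_1, …, I_k` of positive numbers: the number of the primes `p ≤ x` with
`η_j a_p(E_j^{D_j}) / √p ∈ I_j` for all `j` is `n / 2 ^ k + O(√n x ^ ε)`, where `n` is the number of
the primes `p ≤ x` with `|a_p(E_j)| / √p ∈ I_j` for all `j`.
-/

namespace Pool.Agent.Results.MP_753a9c_nt.ProductsOfTwists

open Finset Pool.Agent.W406.TW Pool.Agent.Q233.TL

/-- the number of the odd primes `p ≤ x`, not dividing `4 A_j³ + 27 B_j²` for any `j`, for which
`η_j ap (A j) (B j) p / √p` lies in `I j` for all `j` (`ap A B p` is the trace of Frobenius of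
`y² = x³ + A x + B`) -/
noncomputable def boxCount {k : ℕ} (A B η : Fin k → ℤ) (I : Fin k → Set ℝ) (x : ℕ) : ℕ := by
  classical
  exact ((Icc 1 x).filter fun p : ℕ => p.Prime ∧ p ≠ 2 ∧
    ∀ j, ¬ (p : ℤ) ∣ 4 * A j ^ 3 + 27 * B j ^ 2 ∧
      (((η j * ap (A j) (B j) p : ℤ) : ℝ) / √(p : ℝ)) ∈ I j).card

/-- the number of the odd primes `p ≤ x`, not dividing `4 A_j³ + 27 B_j²` for any `j`, for which
`|ap (A j) (B j) p| / √p` lies in `I j` for all `j` -/
noncomputable def absBoxCount {k : ℕ} (A B : Fin k → ℤ) (I : Fin k → Set ℝ) (x : ℕ) : ℕ := by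
  classical
  exact ((Icc 1 x).filter fun p : ℕ => p.Prime ∧ p ≠ 2 ∧
    ∀ j, ¬ (p : ℤ) ∣ 4 * A j ^ 3 + 27 * B j ^ 2 ∧
      (((|ap (A j) (B j) p| : ℤ) : ℝ) / √(p : ℝ)) ∈ I j).card

/-- the normalized absolute trace -/
noncomputable def nt (A B : ℤ) (p : ℕ) : ℝ := ((|ap A B p| : ℤ) : ℝ) / √(p : ℝ)

/-- the predicate for the twist law -/
def Ev {k : ℕ} (A B η : Fin k → ℤ) (a b : Fin k → ℕ) (p : ℕ) (s : Fin k → ℤ) : Prop :=
  (∀ j, ¬ (p : ℤ) ∣ 4 * A j ^ 3 + 27 * B j ^ 2) ∧ (∀ j, ap (A j) (B j) p ≠ 0) ∧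
  (∀ j, val (nt (A j) (B j)) (a j) ≤ nt (A j) (B j) p ∧ nt (A j) (B j) p ≤ val (nt (A j) (B j)) (b j)) ∧
  ∀ j, s j * ap (A j) (B j) p = η j * |ap (A j) (B j) p|

/-- the interval conditions agree for the primes up to `x` -/
def Agree {k : ℕ} (A B : Fin k → ℤ) (I : Fin k → Set ℝ) (a b : Fin k → ℕ) (x : ℕ) : Prop :=
  ∀ j, ∀ p ≤ x, (nt (A j) (B j) p ∈ I j ↔
    val (nt (A j) (B j)) (a j) ≤ nt (A j) (B j) p ∧ nt (A j) (B j) p ≤ val (nt (A j) (B j)) (b j))

lemma sgn_cases {k : ℕ} {s : Fin k → ℤ} (hs : s ∈ Sg k) (j : Fin k) : s j = 1 ∨ s j = -1 := by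
  unfold Sg at hs
  have h4 := (Fintype.mem_piFinset.1 hs) j
  simpa using h4

lemma ne_zero_of_nt {A B : ℤ} {p : ℕ} {I : Set ℝ} (hI : ∀ y ∈ I, 0 < y) (h : nt A B p ∈ I) :
    ap A B p ≠ 0 := by
  intro h0
  have := hI _ h
  unfold nt at this
  rw [h0] at this
  simp at this

lemma mean_card {k : ℕ} (A B η : Fin k → ℤ) (hη : η ∈ Sg k) (I : Fin k → Set ℝ)
    (hI : ∀ j, ∀ y ∈ I j, 0 < y) (a b : Fin k → ℕ) (x : ℕ) (h : Agree A B I a b x) :
    (X (Ev A B η a b) x).card = absBoxCount A B I x ∧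
    mean (Ev A B η a b) x = (absBoxCount A B I x : ℝ) / 2 ^ k := by
  classical
  have hex : ∀ p ≤ x, (∀ j, ¬ (p : ℤ) ∣ 4 * A j ^ 3 + 27 * B j ^ 2 ∧
      (((|ap (A j) (B j) p| : ℤ) : ℝ) / √(p : ℝ)) ∈ I j) →
      ((Sg k).filter (fun s => Ev A B η a b p s)).card = 1 := by
    intro p hp h1
    have hne : ∀ j, ap (A j) (B j) p ≠ 0 := fun j => ne_zero_of_nt (hI j) (h1 j).2
    have h2 := card_signs (fun j => ap (A j) (B j) p) (fun j => η j * |ap (A j) (B j) p|) (by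
      intro j
      have := hne j
      rcases sgn_cases hη j with h3 | h3 <;> rw [h3] <;> simpa using this)
    rw [if_pos] at h2
    · rw [← h2]
      congr 1
      apply filter_congr
      intro s _
      unfold Ev
      constructor
      · exact fun h3 => h3.2.2.2
      · exact fun h3 => ⟨fun j => (h1 j).1, hne, fun j => (h j p hp).1 (h1 j).2, h3⟩
    · intro j
      rw [abs_mul, abs_abs]
      rcases sgn_cases hη j with h3 | h3 <;> rw [h3] <;> simp
  have hno : ∀ p ≤ x, ¬ (∀ j, ¬ (p : ℤ) ∣ 4 * A j ^ 3 + 27 * B j ^ 2 ∧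
      (((|ap (A j) (B j) p| : ℤ) : ℝ) / √(p : ℝ)) ∈ I j) →
      ∀ s, ¬ Ev A B η a b p s := by
    intro p hp h1 s hs
    apply h1
    intro j
    exact ⟨hs.1 j, (h j p hp).2 (hs.2.2.1 j)⟩
  constructor
  · unfold absBoxCount
    congr 1
    ext p
    rw [mem_X, mem_filter, mem_Icc]
    constructor
    · rintro ⟨h1, h2, h3, s, hs, h4⟩
      refine ⟨h1, h2, h3, ?_⟩
      by_contra hcon
      exact hno p h1.2 hcon s h4
    · rintro ⟨h1, h2, h3, h4⟩
      have h5 := hex p h1.2 h4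
      obtain ⟨s, hs⟩ := card_pos.1 (by rw [h5]; exact Nat.one_pos)
      rw [mem_filter] at hs
      exact ⟨h1, h2, h3, s, hs.1, hs.2⟩
  · unfold mean absBoxCount
    congr 1
    rw [card_filter]
    push_cast
    rw [sum_filter]
    refine sum_congr rfl fun p hp => ?_
    rw [mem_Icc] at hp
    by_cases h1 : p.Prime ∧ p ≠ 2
    · rw [if_pos h1]
      by_cases h2 : ∀ j, ¬ (p : ℤ) ∣ 4 * A j ^ 3 + 27 * B j ^ 2 ∧
          (((|ap (A j) (B j) p| : ℤ) : ℝ) / √(p : ℝ)) ∈ I j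
      · rw [hex p hp.2 h2, if_pos ⟨h1.1, h1.2, by exact_mod_cast h2⟩]; simp
      · have h4 : (Sg k).filter (fun s => Ev A B η a b p s) = ∅ :=
          filter_eq_empty_iff.2 fun s _ => hno p hp.2 h2 s
        rw [h4, if_neg (fun h3 => h2 (by exact_mod_cast h3.2.2))]; simp
    · rw [if_neg h1, if_neg (fun h3 => h1 ⟨h3.1, h3.2.1⟩)]

lemma jac_abs_one {D : ℤ} {p : ℕ} (hp : p.Prime) (h : ¬ (p : ℤ) ∣ D) : |jacobiSym D p| = 1 := by
  rcases jac_pm hp h with h1 | h1 <;> rw [h1] <;> simp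

lemma cnt_eq {k : ℕ} (A B η D : Fin k → ℤ) (hη : η ∈ Sg k) (I : Fin k → Set ℝ)
    (hI : ∀ j, ∀ y ∈ I j, 0 < y) (a b : Fin k → ℕ) (x : ℕ) (h : Agree A B I a b x) :
    Q233.TL.cnt (Ev A B η a b) D x =
      boxCount (fun j => A j * D j ^ 2) (fun j => B j * D j ^ 3) η I x := by
  classical
  unfold Q233.TL.cnt boxCount
  congr 1
  ext p
  rw [mem_filter, mem_filter, mem_Icc]
  have hpos : ∀ p : ℕ, p.Prime → (0 : ℝ) < √(p : ℝ) := fun p hp =>
    Real.sqrt_pos.2 (by exact_mod_cast hp.pos)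
  constructor
  · rintro ⟨h1, h2, h3, h4, h5, h6, h7, h8⟩
    refine ⟨h1, h2, h3, fun j => ⟨(disc_iff _ _ _ h2).2 ⟨h4 j, h5 j⟩, ?_⟩⟩
    rw [ap_twist _ _ _ h2 h3, h8 j]
    have h9 : η j * (η j * |ap (A j) (B j) p|) = |ap (A j) (B j) p| := by
      rcases sgn_cases hη j with h10 | h10 <;> rw [h10] <;> ring
    rw [h9]
    exact (h j p h1.2).2 (h7 j)
  · rintro ⟨h1, h2, h3, h4⟩
    have hD : ∀ j, ¬ (p : ℤ) ∣ D j := fun j => ((disc_iff _ _ _ h2).1 (h4 j).1).1
    have h5 : ∀ j, η j * (jacobiSym (D j) p * ap (A j) (B j) p) = |ap (A j) (B j) p| := by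
      intro j
      have h6 := (h4 j).2
      rw [ap_twist _ _ _ h2 h3] at h6
      have h7 := hI j _ h6
      have h8 : (0 : ℝ) < ((η j * (jacobiSym (D j) p * ap (A j) (B j) p) : ℤ) : ℝ) := by
        by_contra hcon
        push Not at hcon
        have := div_nonpos_of_nonpos_of_nonneg hcon (hpos p h2).le
        linarith
      have h9 : 0 < η j * (jacobiSym (D j) p * ap (A j) (B j) p) := by exact_mod_cast h8
      rw [← abs_of_pos h9, abs_mul, abs_mul, jac_abs_one h2 (hD j), one_mul]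
      rcases sgn_cases hη j with h10 | h10 <;> rw [h10] <;> simp
    have h6 : ∀ j, nt (A j) (B j) p ∈ I j := by
      intro j
      have h7 := (h4 j).2
      rw [ap_twist _ _ _ h2 h3, h5 j] at h7
      exact h7
    refine ⟨h1, h2, h3, hD, fun j => ((disc_iff _ _ _ h2).1 (h4 j).1).2,
      fun j => ne_zero_of_nt (hI j) (h6 j), fun j => (h j p h1.2).1 (h6 j), fun j => ?_⟩
    rw [← h5 j, ← mul_assoc, ← mul_assoc]
    have h9 : η j * η j = 1 := by
      rcases sgn_cases hη j with h10 | h10 <;> rw [h10] <;> ring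
    rw [h9, one_mul]

theorem result (k : ℕ) (ε : ℝ) (hε : 0 < ε) :
    ∃ C c : ℝ, 0 < C ∧ 0 < c ∧ ∃ N₀ : ℕ, ∀ N : ℕ, N₀ ≤ N → ∀ A B : Fin k → ℤ,
      ({D : Fin k → ℤ | (∀ j, D j ≠ 0 ∧ |D j| ≤ N) ∧ ∃ x : ℕ, (Real.log N) ^ C ≤ x ∧
        (x : ℝ) ≤ (N : ℝ) ^ c ∧ ∃ η : Fin k → ℤ, (∀ j, η j = 1 ∨ η j = -1) ∧
        ∃ I : Fin k → Set ℝ, (∀ j, (I j).OrdConnected ∧ ∀ y ∈ I j, 0 < y) ∧
        √(absBoxCount A B I x : ℝ) * (x : ℝ) ^ ε <
          |(boxCount (fun j => A j * D j ^ 2) (fun j => B j * D j ^ 3) η I x : ℝ) -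
            absBoxCount A B I x / 2 ^ k|}.ncard : ℝ) ≤ (N : ℝ) ^ ((k : ℝ) - c) := by
  classical
  obtain ⟨C, c, hC, hc, N₀, h⟩ := law k (k + (2 * k + 2 * k)) ε (by positivity) hε 4
  refine ⟨C, c, hC, hc, N₀, fun N hN A B => ?_⟩
  refine le_trans ?_ (h N hN ((Fin k → ℤ) × (Fin k → ℕ) × (Fin k → ℕ))
    (fun x => Sg k ×ˢ (Fintype.piFinset fun _ : Fin k => range (2 * (x + 1) + 2)) ×ˢ
      (Fintype.piFinset fun _ : Fin k => range (2 * (x + 1) + 2)))
    (fun l => Ev A B l.1 l.2.1 l.2.2) ?_)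
  · refine Nat.cast_le.2 (Set.ncard_le_ncard ?_ ?_)
    · rintro D ⟨hD, x, hx1, hx2, η, hη, I, hI, hlt⟩
      have hηS : η ∈ Sg k := by
        unfold Sg
        rw [Fintype.mem_piFinset]
        intro j
        rcases hη j with h1 | h1 <;> simp [h1]
      have htr := fun j => trace (nt (A j) (B j)) (x + 1) (I j) (hI j).1
      choose a b ha hb hab using htr
      have hagree : Agree A B I a b x := fun j p hp => (hab j p (by omega)).1
      refine ⟨hD, x, hx1, hx2, (η, a, b), ?_, ?_⟩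
      · rw [mem_product, mem_product]
        refine ⟨hηS, ?_, ?_⟩
        · rw [Fintype.mem_piFinset]; exact fun j => mem_range.2 (ha j)
        · rw [Fintype.mem_piFinset]; exact fun j => mem_range.2 (hb j)
      · obtain ⟨h1, h2⟩ := mean_card A B η hηS I (fun j => (hI j).2) a b x hagree
        rw [h1, h2, cnt_eq A B η D hηS I (fun j => (hI j).2) a b x hagree]
        exact hlt
    · refine Set.Finite.subset (Set.Finite.pi (t := fun _ : Fin k => Set.Icc (-(N : ℤ)) N)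
        (fun _ => Set.finite_Icc _ _)) ?_
      rintro D ⟨hD, _⟩ j _
      exact abs_le.1 (hD j).2
  · intro x hx
    have hx4 : (4 : ℝ) ≤ x := by exact_mod_cast hx
    have hx0 : (0 : ℝ) < x := by linarith
    have hb : (((Fintype.piFinset fun _ : Fin k => range (2 * (x + 1) + 2)).card : ℕ) : ℝ) ≤
        (x : ℝ) ^ (2 * (k : ℝ)) := by
      rw [Fintype.card_piFinset]
      simp only [card_range, prod_const, card_univ, Fintype.card_fin]
      rw [Real.rpow_mul hx0.le, Real.rpow_natCast]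
      push_cast
      refine pow_le_pow_left₀ (by positivity) ?_ k
      rw [Real.rpow_two]
      nlinarith
    rw [card_product, card_product, Nat.cast_mul, Nat.cast_mul, Real.rpow_add hx0, Real.rpow_add hx0]
    refine mul_le_mul ?_ (mul_le_mul hb hb (by positivity) (by positivity)) (by positivity)
      (by positivity)
    rw [card_Sg, Real.rpow_natCast]
    push_cast
    exact pow_le_pow_left₀ (by norm_num) (by linarith) k

end Pool.Agent.Results.MP_753a9c_nt.ProductsOfTwists
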